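import Pool.Agent.H72.UZ.AllK

/-!
# MP_f6fd33_lc: uniformization at non adjacent projective levels in generic extensions of `L`

The definitions used by the statement are in `Pool/Agent/H72/UZ/Stmt.lean` (`PUF.Sig`, `PUF.Pi`,
`PUF.PiUniformization`), `Pool/Agent/H9/SE/Stmt.lean` (`PSR.gr`, `PSR.pr`, `PSR.Op`) and
`Pool/Agent/H45/SF/Stmt.lean` (`SF.V`, `SF.ZFC`, `SF.LA`, `SF.IsPo`, `SF.Gen`, `SF.Ext`).
-/

open Ordinal

/-- There is a countable level `L_τ` of the constructible hierarchy which is a model of ZFC; and for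
every finite set `A` of pairwise non adjacent numbers `n ≥ 1`, `n ≠ 2`, in every such `L_τ` there is
a forcing notion such that in all generic extensions the boldface `Π¹ₙ` uniformization property
holds for all `n ∈ A`. The question is the case `A = {n, m}`. -/
theorem Pool.Agent.Results.MP_f6fd33_lc.NonAdjacentUniformization.result :
    (∃ τ : Ordinal.{0}, ((SF.LA ∅ τ : SF.V) : Set SF.V).Countable ∧ SF.ZFC (· ∈ SF.LA ∅ τ)) ∧
    ∀ A : Finset ℕ, (∀ n ∈ A, 1 ≤ n ∧ n ≠ 2) →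
      (∀ n ∈ A, ∀ m ∈ A, n ≠ m → n + 2 ≤ m ∨ m + 2 ≤ n) →
      ∀ τ : Ordinal.{0}, ((SF.LA ∅ τ : SF.V) : Set SF.V).Countable → SF.ZFC (· ∈ SF.LA ∅ τ) →
        ∃ c ∈ SF.LA ∅ τ, ∃ r ∈ SF.LA ∅ τ, SF.IsPo c r ∧
          ∀ G, SF.Gen (· ∈ SF.LA ∅ τ) c r G →
            ∀ n ∈ A, PUF.PiUniformization (SF.Ext (· ∈ SF.LA ∅ τ) G) n :=
  ⟨SE.All.aL0, SE.UZ.AllK.aFIN⟩
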